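import Pool.Agent.helper74.VDI.SpecA
import Pool.Agent.helper48.VD.BC2D
import Pool.Agent.helper89.VD.BC1D

/-!
Project INF (MP_07c750_an), row vdi:BC1I: one frequency, conformal families
-/

set_option autoImplicit false

open scoped ContDiff Topology InnerProductSpace ENNReal ComplexConjugate
open MeasureTheory Filter Set

namespace Pool.Agent.VDI

open Pool.Agent.RPQ (PN PJ UN upd)
open Pool.Agent.VQ (CH rk)
open Pool.Agent.VN (aN)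
open Pool.Agent.VD
open Pool.Agent.VDE (UWLD FDX)

noncomputable section

variable {d : ℕ}

/-- the linear combinations: smooth, invariant, small -/
theorem BC1I_lin {Γ : Type} [Group Γ] [MulAction Γ (V d)] {m : ℕ} {hs : Fin m → V d → ℝ} (hhs : ∀ a, ContDiff ℝ ∞ (hs a) ∧ Inv Γ (hs a)) (c : Fin m → ℝ) :
    ContDiff ℝ ∞ (fun x => ∑ a, c a * hs a x) ∧ Inv Γ (fun x => ∑ a, c a * hs a x) ∧
    ∀ (n : ℕ) (x : V d), iteratedFDeriv ℝ n (fun x => ∑ a, c a * hs a x) x = ∑ a, c a • iteratedFDeriv ℝ n (hs a) x := by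
  refine ⟨ContDiff.sum fun a _ => contDiff_const.mul (hhs a).1, fun γ x => Finset.sum_congr rfl fun a _ => ?_, fun n x => ?_⟩
  · rw [(hhs a).2 γ x]
  · have hn : ∀ a, ContDiff ℝ n (hs a) := fun a => (hhs a).1.of_le (by exact_mod_cast le_top)
    have hca : ∀ a, ContDiffAt ℝ n (fun x => c a • hs a x) x := fun a => ContDiff.contDiffAt (ContDiff.smul (contDiff_const (c := c a)) (hn a))
    have e1 : (fun x : V d => ∑ a, c a * hs a x) = fun x => ∑ a, c a • hs a x := rfl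
    rw [e1, iteratedFDeriv_fun_sum_apply (fun a _ => hca a)]
    refine Finset.sum_congr rfl fun a _ => ?_
    exact iteratedFDeriv_const_smul_apply' (hn a).contDiffAt

theorem BC1I_sms {Γ : Type} [Group Γ] [MulAction Γ (V d)] {Bs B1 : ℕ → ℕ → ℝ} {κ R : ℝ} {g f : V d → ℝ} (hκ : 0 ≤ κ / R) (hg : SmS Γ Bs (κ / 2) R g)
    (hf1 : Inv Γ f) (hf2 : ContDiff ℝ ∞ f) (hf3 : ∀ x, |f x| ≤ κ / R / 2) (hf4 : ∀ (m' n : ℕ) (x : V d), ‖x‖ ≤ m' → ‖iteratedFDeriv ℝ n f x‖ ≤ B1 m' n * (κ / R)) :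
    SmS Γ (fun m' n => max (Bs m' n) 0 + B1 m' n) κ R (fun x => g x + f x) := by
  have e0 : κ / 2 / R = κ / R / 2 := by ring
  refine ⟨fun γ x => ?_, hg.smooth.add hf2, fun x => ?_, fun m' n x hx => ?_⟩
  · have h1 := hg.inv γ x
    have h2 := hf1 γ x
    show g (γ • x) + f (γ • x) = g x + f x
    rw [h1, h2]
  · have h1 := hg.bd x
    rw [e0] at h1
    have h2 := hf3 x
    have h3 := abs_add_le (g x) (f x)
    linarith
  · have h1 := hg.der m' n x hx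
    rw [e0] at h1
    have h2 := hf4 m' n x hx
    have hgc : ContDiffAt ℝ n g x := (hg.smooth.of_le (by exact_mod_cast le_top)).contDiffAt
    have hfc : ContDiffAt ℝ n f x := (hf2.of_le (by exact_mod_cast le_top)).contDiffAt
    have e1 : iteratedFDeriv ℝ n (fun x => g x + f x) x = iteratedFDeriv ℝ n g x + iteratedFDeriv ℝ n f x := iteratedFDeriv_add_apply hgc hfc
    rw [e1]
    refine (norm_add_le _ _).trans ?_
    have h3 : Bs m' n * (κ / R / 2) ≤ max (Bs m' n) 0 * (κ / R) := by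
      refine (mul_le_mul_of_nonneg_right (le_max_left (Bs m' n) 0) (by linarith)).trans ?_
      exact mul_le_mul_of_nonneg_left (by linarith) (le_max_right _ _)
    show ‖iteratedFDeriv ℝ n g x‖ + ‖iteratedFDeriv ℝ n f x‖ ≤ (max (Bs m' n) 0 + B1 m' n) * (κ / R)
    rw [add_mul]
    linarith

theorem BC1I_mono {Γ : Type} [Group Γ] [MulAction Γ (V d)] {Bs B' : ℕ → ℕ → ℝ} {κ R : ℝ} {g : V d → ℝ} (hκ : 0 ≤ κ / R) (hB : ∀ m' n, Bs m' n ≤ B' m' n) (hg : SmS Γ Bs κ R g) : SmS Γ B' κ R g :=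
  ⟨hg.inv, hg.smooth, hg.bd, fun m' n x hx => (hg.der m' n x hx).trans (mul_le_mul_of_nonneg_right (hB m' n) hκ)⟩

theorem BC1I_cfm (f g : V d → ℝ) (G : V d → V d →L[ℝ] V d) : cfm f (cfm g G) = cfm (fun x => f x + g x) G := by
  funext x
  unfold cfm
  rw [smul_smul, ← Real.exp_add]

/-- cells -/
theorem BC1I_cell {N : ℕ} (hN : 0 < N) {s s' : ℝ} (h : ⌊s * N⌋ = ⌊s' * N⌋) : |s - s'| ≤ 1 / N := by
  have hN' : (0 : ℝ) < N := by exact_mod_cast hN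
  have h1 := Int.abs_sub_lt_one_of_floor_eq_floor h
  rw [← sub_mul, abs_mul, abs_of_pos hN'] at h1
  rw [le_div_iff₀ hN']
  exact h1.le

theorem BC1I_mem {m N : ℕ} {S : ℝ} (s : V m) (hs : ‖s‖ ≤ S) : (fun a : Fin m => ⌊s a * N⌋) ∈ Fintype.piFinset (fun _ : Fin m => Finset.Icc (-((⌈S⌉₊ * N : ℕ) : ℤ)) ((⌈S⌉₊ * N : ℕ) : ℤ)) := by
  rw [Fintype.mem_piFinset]
  intro a
  have h1 : ‖s a‖ ≤ ‖s‖ := PiLp.norm_apply_le s a
  rw [Real.norm_eq_abs] at h1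
  have h2 : S ≤ ⌈S⌉₊ := Nat.le_ceil S
  have h3 : |s a| ≤ (⌈S⌉₊ : ℝ) := h1.trans (hs.trans h2)
  obtain ⟨h4, h5⟩ := abs_le.1 h3
  have hN : (0 : ℝ) ≤ N := Nat.cast_nonneg N
  rw [Finset.mem_Icc]
  constructor
  · rw [Int.le_floor]
    push_cast
    nlinarith
  · have h6 : s a * N ≤ (((⌈S⌉₊ * N : ℕ) : ℤ) : ℝ) := by
      push_cast
      nlinarith
    have h7 : ((⌊s a * N⌋ : ℤ) : ℝ) ≤ (((⌈S⌉₊ * N : ℕ) : ℤ) : ℝ) := (Int.floor_le _).trans h6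
    exact Int.cast_le.1 h7

theorem BC1I_card {m M : ℕ} : (Fintype.piFinset (fun _ : Fin m => Finset.Icc (-(M : ℤ)) (M : ℤ))).card = (2 * M + 1) ^ m := by
  rw [Fintype.card_piFinset_const, Int.card_Icc]
  congr 1
  omega

/-- the number of cells -/
theorem BC1I_count {m c : ℕ} {R : ℝ} (hR : 1 ≤ R) (hc : 2 * (c : ℝ) + 1 ≤ R) {N : ℕ} (hN : (N : ℝ) = R ^ 4) :
    ((2 * (c * N) + 1 : ℕ) : ℝ) ^ m * R ^ (-(4 + 5 * (m : ℝ))) ≤ R ^ (-4 : ℝ) := by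
  have hR0 : 0 < R := by linarith
  have h4 : (1 : ℝ) ≤ R ^ 4 := one_le_pow₀ hR
  have h1 : ((2 * (c * N) + 1 : ℕ) : ℝ) ≤ R ^ 5 := by
    push_cast
    rw [hN]
    calc 2 * ((c : ℝ) * R ^ 4) + 1 ≤ (2 * (c : ℝ) + 1) * R ^ 4 := by nlinarith
      _ ≤ R * R ^ 4 := mul_le_mul_of_nonneg_right hc (by positivity)
      _ = R ^ 5 := by ring
  have h2 : ((2 * (c * N) + 1 : ℕ) : ℝ) ^ m ≤ R ^ (5 * (m : ℝ)) := by
    refine (pow_le_pow_left₀ (Nat.cast_nonneg _) h1 m).trans (le_of_eq ?_)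
    rw [← pow_mul, ← Real.rpow_natCast]
    push_cast
    rfl
  calc ((2 * (c * N) + 1 : ℕ) : ℝ) ^ m * R ^ (-(4 + 5 * (m : ℝ))) ≤ R ^ (5 * (m : ℝ)) * R ^ (-(4 + 5 * (m : ℝ))) :=
        mul_le_mul_of_nonneg_right h2 (Real.rpow_nonneg hR0.le _)
    _ = R ^ (-4 : ℝ) := by
        rw [← Real.rpow_add hR0]
        congr 1
        ring

/-- the thresholds -/
theorem BC1I_num {A CN e R : ℝ} (hA : 0 ≤ A) (hCN : 1 ≤ CN) (he : 0 < e) (hR : 1 ≤ R) (h1 : 2 * A ≤ R) (h2 : CN * A * (2 * (3 + e) / e) ≤ R) :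
    A * (1 / R ^ 4) ≤ R ^ (-3 : ℝ) / 2 ∧ A * (1 / R ^ 4) ≤ R ^ (1 / 100 : ℝ) / R / 2 ∧ A * (1 / R ^ 4) ≤ 1 ∧ CN * (A * (1 / R ^ 4)) ≤ e / (2 * (3 + e)) ∧
      1 / R ^ 4 ≤ R ^ (1 / 100 : ℝ) / R := by
  have hR0 : 0 < R := by linarith
  have e3 : R ^ (-3 : ℝ) = 1 / R ^ 3 := by
    have e : (-3 : ℝ) = -((3 : ℕ) : ℝ) := by norm_num
    rw [e, Real.rpow_neg hR0.le, Real.rpow_natCast, one_div]
  have hp : 1 ≤ R ^ (1 / 100 : ℝ) := Real.one_le_rpow hR (by norm_num)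
  have hR3 : 1 ≤ R ^ 3 := one_le_pow₀ hR
  have hR2 : 1 ≤ R ^ 2 := one_le_pow₀ hR
  have hA3 : A * (1 / R ^ 4) ≤ 1 / R ^ 3 / 2 := by
    rw [mul_one_div, div_div, div_le_div_iff₀ (by positivity) (by positivity)]
    calc A * (R ^ 3 * 2) = 2 * A * R ^ 3 := by ring
      _ ≤ R * R ^ 3 := mul_le_mul_of_nonneg_right h1 (by positivity)
      _ = 1 * R ^ 4 := by ring
  have h31 : 1 / R ^ 3 ≤ 1 / R := one_div_le_one_div_of_le hR0 (by nlinarith)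
  have h1R : 1 / R ≤ R ^ (1 / 100 : ℝ) / R := div_le_div_of_nonneg_right hp hR0.le
  have h41 : 1 / R ^ 4 ≤ 1 / R := one_div_le_one_div_of_le hR0 (by nlinarith)
  have hR1 : 1 / R ≤ 1 := by
    rw [div_le_one hR0]
    exact hR
  refine ⟨by rw [e3]; exact hA3, by linarith, by linarith, ?_, h41.trans h1R⟩
  have h5 : CN * A ≤ e / (2 * (3 + e)) * R := by
    rw [div_mul_eq_mul_div, le_div_iff₀ (by positivity)]
    calc CN * A * (2 * (3 + e)) = CN * A * (2 * (3 + e) / e) * e := by field_simp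
      _ ≤ R * e := mul_le_mul_of_nonneg_right h2 he.le
      _ = e * R := by ring
  calc CN * (A * (1 / R ^ 4)) = CN * A * (1 / R ^ 4) := by ring
    _ ≤ CN * A * (1 / R) := mul_le_mul_of_nonneg_left h41 (by positivity)
    _ ≤ e / (2 * (3 + e)) * R * (1 / R) := mul_le_mul_of_nonneg_right h5 (by positivity)
    _ = e / (2 * (3 + e)) := by field_simp

theorem BC1I_proof (hPRD : PRD_stmt) (hTLDI : TLDI_stmt) (hGFL : GFL_stmt) (hGIN : VN.GIN_stmt) (hRND : VQ.RND_stmt) (hRSB : VQ.RSB_stmt) (hNNC : NNC_stmt) (hMVE : MVE_stmt) : BC1I_stmt := by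
  intro d Γ _ _ K F0 r0 χ0 ch Cn k0 J p χ m Gs hd hK hF hPU hch hFam hCFa k B S h e hS hh he
  obtain ⟨G0, hs, hG0, hiso, hhs, hGs⟩ := hCFa
  obtain ⟨Bs, R1, hR1, hT⟩ := hTLDI d Γ K Cn k0 J p χ hK hFam
  obtain ⟨CN, hCN, hNN⟩ := hNNC d
  -- the bounds of the functions `hs`
  have hDb : ∀ (a : Fin m) (m' n : ℕ), ∃ c : ℝ, ∀ x ∈ Metric.closedBall (0 : V d) m', ‖iteratedFDeriv ℝ n (hs a) x‖ ≤ c := fun a m' n =>
    (isCompact_closedBall (0 : V d) (m' : ℝ)).exists_bound_of_continuousOn ((hhs a).1.continuous_iteratedFDeriv (by exact_mod_cast le_top)).continuousOn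
  choose D hD using hDb
  have hD0 : ∀ a : Fin m, ∃ c : ℝ, ∀ x, |hs a x| ≤ c := by
    intro a
    obtain ⟨c, hc⟩ := hK.compact.exists_bound_of_continuousOn (hhs a).1.continuous.continuousOn
    refine ⟨c, fun x => ?_⟩
    obtain ⟨γ, hγ⟩ := hK.cover x
    have h1 := hc (γ • x) hγ
    rwa [(hhs a).2 γ x, Real.norm_eq_abs] at h1
  choose c0 hc0 using hD0
  obtain ⟨A, hAd⟩ : ∃ A : ℝ, A = ∑ a, |c0 a| := ⟨_, rfl⟩
  have hA : 0 ≤ A := by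
    rw [hAd]
    exact Finset.sum_nonneg fun a _ => abs_nonneg _
  obtain ⟨B1, hB1d⟩ : ∃ B1 : ℕ → ℕ → ℝ, B1 = fun m' n => ∑ a, |D a m' n| := ⟨_, rfl⟩
  have hB10 : ∀ m' n, 0 ≤ B1 m' n := by
    intro m' n
    rw [hB1d]
    exact Finset.sum_nonneg fun a _ => abs_nonneg _
  -- small linear combinations
  have hlin : ∀ (c : Fin m → ℝ) (δ : ℝ), 0 ≤ δ → (∀ a, |c a| ≤ δ) → (∀ x, |∑ a, c a * hs a x| ≤ A * δ) ∧
      ∀ (m' n : ℕ) (x : V d), ‖x‖ ≤ m' → ‖iteratedFDeriv ℝ n (fun x => ∑ a, c a * hs a x) x‖ ≤ B1 m' n * δ := by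
    intro c δ hδ hc
    constructor
    · intro x
      rw [hAd, Finset.sum_mul]
      refine (Finset.abs_sum_le_sum_abs _ _).trans (Finset.sum_le_sum fun a _ => ?_)
      rw [abs_mul, mul_comm |c a|]
      exact mul_le_mul ((hc0 a x).trans (le_abs_self _)) (hc a) (abs_nonneg _) (abs_nonneg _)
    · intro m' n x hx
      rw [(BC1I_lin hhs c).2.2 n x, hB1d]
      show ‖∑ a, c a • iteratedFDeriv ℝ n (hs a) x‖ ≤ (∑ a, |D a m' n|) * δ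
      rw [Finset.sum_mul]
      refine (norm_sum_le _ _).trans (Finset.sum_le_sum fun a _ => ?_)
      rw [norm_smul, Real.norm_eq_abs, mul_comm |c a|]
      exact mul_le_mul ((hD a m' n x (mem_closedBall_zero_iff.2 hx)).trans (le_abs_self _)) (hc a) (abs_nonneg _) (abs_nonneg _)
  obtain ⟨B', hB'd⟩ : ∃ B' : ℕ → ℕ → ℝ, B' = fun m' n => max (Bs m' n) 0 + B1 m' n := ⟨_, rfl⟩
  have hBB : ∀ m' n, Bs m' n ≤ B' m' n := by
    intro m' n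
    rw [hB'd]
    have h1 := le_max_left (Bs m' n) 0
    have h2 := hB10 m' n
    show Bs m' n ≤ max (Bs m' n) 0 + B1 m' n
    linarith
  obtain ⟨v0, hv0, hP2⟩ := hPRD d Γ K F0 r0 χ0 ch k B B' Cn hd hK hF hPU hch h (e / 2) hh (half_pos he)
  refine ⟨v0, hv0, ?_⟩
  intro T0 hT0
  obtain ⟨a, R0, C2, ha, hR0, hC2, hP3⟩ := hP2 T0 (4 + 5 * (m : ℝ)) hT0 (by positivity)
  obtain ⟨R2, hR2, hG⟩ := hGIN a C2 k0 ha
  obtain ⟨R3, hR3d⟩ : ∃ R3 : ℝ, R3 = max (2 * (⌈S⌉₊ : ℝ) + 1) (max (2 * A) (CN * A * (2 * (3 + e) / e))) := ⟨_, rfl⟩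
  refine ⟨⌈(max (max R0 R3) (max R1 R2)) ^ 2⌉₊, ?_⟩
  intro i hi
  have hsq : max (max R0 R3) (max R1 R2) ≤ Real.sqrt i := by
    apply Real.le_sqrt_of_sq_le
    have h1 := Nat.le_ceil ((max (max R0 R3) (max R1 R2)) ^ 2)
    have h2 : ((⌈(max (max R0 R3) (max R1 R2)) ^ 2⌉₊ : ℕ) : ℝ) ≤ i := by exact_mod_cast hi
    exact h1.trans h2
  have hRa : R0 ≤ Real.sqrt i := ((le_max_left _ _).trans (le_max_left _ _)).trans hsq
  have hRb : R1 ≤ Real.sqrt i := ((le_max_left _ _).trans (le_max_right _ _)).trans hsq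
  have hRc : R2 ≤ Real.sqrt i := ((le_max_right _ _).trans (le_max_right _ _)).trans hsq
  have hRd : R3 ≤ Real.sqrt i := ((le_max_right _ _).trans (le_max_left _ _)).trans hsq
  have hRe : 2 * (⌈S⌉₊ : ℝ) + 1 ≤ Real.sqrt i := by
    rw [hR3d] at hRd
    exact (le_max_left _ _).trans hRd
  have hRf : 2 * A ≤ Real.sqrt i := by
    rw [hR3d] at hRd
    exact ((le_max_left _ _).trans (le_max_right _ _)).trans hRd
  have hRg : CN * A * (2 * (3 + e) / e) ≤ Real.sqrt i := by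
    rw [hR3d] at hRd
    exact ((le_max_right _ _).trans (le_max_right _ _)).trans hRd
  have hi1 : 1 ≤ i := by
    rcases Nat.eq_zero_or_pos i with h0 | h0
    · exfalso
      rw [h0, Nat.cast_zero, Real.sqrt_zero] at hRa
      linarith
    · exact h0
  obtain ⟨hn10, hn4⟩ := BC1D_num i hi1
  have hRpos : 0 < Real.sqrt i := by linarith
  have hR1' : 1 ≤ Real.sqrt i := by linarith
  have hN4 : ((i ^ 2 : ℕ) : ℝ) = Real.sqrt i ^ 4 := by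
    have h1 : Real.sqrt i ^ 2 = (i : ℝ) := Real.sq_sqrt (Nat.cast_nonneg i)
    calc ((i ^ 2 : ℕ) : ℝ) = (i : ℝ) ^ 2 := by push_cast; rfl
      _ = (Real.sqrt i ^ 2) ^ 2 := by rw [h1]
      _ = Real.sqrt i ^ 4 := by ring
  have hNpos : 0 < i ^ 2 := by positivity
  obtain ⟨g1, g2, g3, g4, g5⟩ := BC1I_num hA hCN he hR1' hRf hRg
  obtain ⟨K', hK0, hK1, hK2, hK3, hK4, hK5, hK6, hK7⟩ := hG (Real.sqrt i) hRc
  obtain ⟨hT1, hT2⟩ := hT (Real.sqrt i) K' hRb hK2 hK3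
  obtain ⟨T, hTc, r, v', hr, hv', hru, hrd⟩ := hRND J K' (i ^ 5) (Nat.one_le_pow _ _ hi1)
  -- the candidates
  obtain ⟨Cand, hCand⟩ : ∃ Cand : T → (Fin m → ℤ) → V m → Prop, Cand = fun b c s => ‖s‖ ≤ S ∧ (∀ a, ⌊s a * ((i ^ 2 : ℕ) : ℝ)⌋ = c a) ∧ Cls Γ K k B (cfm (bD χ K' (v' b)) (Gs s)) ∧
      ∀ Φ : ℝ → P d → P d, IsFlow (cfm (bD χ K' (v' b)) (Gs s)) Φ → UWLD F0 (cfm (bD χ K' (v' b)) (Gs s)) Φ h (e / 1600) v0 T0 := ⟨_, rfl⟩
  have hsel : ∀ (b : T) (c : Fin m → ℤ), ∃ s : V m, (∃ s', Cand b c s') → Cand b c s := by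
    intro b c
    by_cases h1 : ∃ s', Cand b c s'
    · obtain ⟨s', hs'⟩ := h1
      exact ⟨s', fun _ => hs'⟩
    · exact ⟨0, fun h2 => absurd h2 h1⟩
  choose s0 hs0 using hsel
  obtain ⟨cells, hcells⟩ : ∃ cells : Finset (Fin m → ℤ), cells = Fintype.piFinset (fun _ : Fin m => Finset.Icc (-((⌈S⌉₊ * i ^ 2 : ℕ) : ℤ)) ((⌈S⌉₊ * i ^ 2 : ℕ) : ℤ)) := ⟨_, rfl⟩
  refine ⟨K', fun ζ => v' (r ζ), hK2, hK3, fun ζ q => hv' (r ζ) q, ?_, ?_⟩
  · intro ζ hζ q hq1 hq2 hq3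
    rw [hn10]
    exact hrd ζ hζ q hq1 hq2 hq3
  have hone : ∀ (b : T) (c : Fin m → ℤ), PJ (J K') {ξ | Cand b c (s0 b c) ∧
      ¬ GdD Γ B' F0 h (e / 2) (Real.sqrt i) (cfm (bD χ K' (v' b)) (Gs (s0 b c))) (fun x => wD χ K' (v' b) x + aN K' * VF (χ K') ξ x)} ≤ ENNReal.ofReal (Real.sqrt i ^ (-(4 + 5 * (m : ℝ)))) := by
    intro b c
    by_cases hU : Cand b c (s0 b c)
    · have hU' := hU
      rw [hCand] at hU'
      obtain ⟨-, -, hU2, hU3⟩ := hU'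
      obtain ⟨Φ, hΦ⟩ := hGFL d Γ K _ hK hU2.met hU2.isom
      have hU4 : UWLD F0 (cfm (bD χ K' (v' b)) (Gs (s0 b c))) Φ h (e / 2 / 800) v0 T0 := by
        have e1 : e / 2 / 800 = e / 1600 := by ring
        rw [e1]
        exact hU3 Φ hΦ
      have h1 := hP3 (Real.sqrt i) (rk K') (aN K') (J K') (p K') (χ K') (wD χ K' (v' b)) (cfm (bD χ K' (v' b)) (Gs (s0 b c))) Φ hRa (Real.exp_pos _) hK5 hK6 (hFam.net K' hK0) hU2 hΦ hU4
        (fun ξ hξ => BC1I_mono (by positivity) hBB (hT1 (v' b) ξ (hv' b) hξ))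
      refine le_trans (measure_mono ?_) h1
      intro ξ hξ
      exact hξ.2
    · have h1 : {ξ : Fin (J K') → ℝ | Cand b c (s0 b c) ∧
          ¬ GdD Γ B' F0 h (e / 2) (Real.sqrt i) (cfm (bD χ K' (v' b)) (Gs (s0 b c))) (fun x => wD χ K' (v' b) x + aN K' * VF (χ K') ξ x)} = ∅ := by
        ext ξ
        constructor
        · intro hξ
          exact absurd hξ.1 hU
        · intro hξ
          exact absurd hξ (Set.notMem_empty _)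
      rw [h1, measure_empty]
      exact bot_le
  have hE : ∀ b : T, PJ (J K') {ξ | ∃ c ∈ cells, Cand b c (s0 b c) ∧
      ¬ GdD Γ B' F0 h (e / 2) (Real.sqrt i) (cfm (bD χ K' (v' b)) (Gs (s0 b c))) (fun x => wD χ K' (v' b) x + aN K' * VF (χ K') ξ x)} ≤ ENNReal.ofReal ((i : ℝ) ^ (-2 : ℝ)) := by
    intro b
    have h1 : {ξ : Fin (J K') → ℝ | ∃ c ∈ cells, Cand b c (s0 b c) ∧
      ¬ GdD Γ B' F0 h (e / 2) (Real.sqrt i) (cfm (bD χ K' (v' b)) (Gs (s0 b c))) (fun x => wD χ K' (v' b) x + aN K' * VF (χ K') ξ x)} ⊆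
        ⋃ c ∈ cells, {ξ | Cand b c (s0 b c) ∧
      ¬ GdD Γ B' F0 h (e / 2) (Real.sqrt i) (cfm (bD χ K' (v' b)) (Gs (s0 b c))) (fun x => wD χ K' (v' b) x + aN K' * VF (χ K') ξ x)} := by
      intro ξ hξ
      obtain ⟨c, hc1, hc2⟩ := hξ
      exact Set.mem_biUnion (show c ∈ (cells : Set (Fin m → ℤ)) from hc1) hc2
    refine (measure_mono h1).trans ((measure_biUnion_finset_le cells _).trans ?_)
    refine (Finset.sum_le_sum fun c _ => hone b c).trans ?_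
    rw [Finset.sum_const, nsmul_eq_mul, ← hn4]
    have h2 : ((cells.card : ℕ) : ENNReal) = ENNReal.ofReal ((2 * (⌈S⌉₊ * i ^ 2) + 1 : ℕ) ^ m : ℝ) := by
      rw [hcells, BC1I_card, ← Nat.cast_pow, ENNReal.ofReal_natCast]
    rw [h2, ← ENNReal.ofReal_mul (by positivity)]
    exact ENNReal.ofReal_le_ofReal (BC1I_count hR1' hRe hN4)
  have hfin := hRSB K' (J K') T r (ENNReal.ofReal ((i : ℝ) ^ (-2 : ℝ))) (fun b => {ξ | ∃ c ∈ cells, Cand b c (s0 b c) ∧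
      ¬ GdD Γ B' F0 h (e / 2) (Real.sqrt i) (cfm (bD χ K' (v' b)) (Gs (s0 b c))) (fun x => wD χ K' (v' b) x + aN K' * VF (χ K') ξ x)}) hr hru hE
  refine le_trans (measure_mono ?_) hfin
  intro ζ hζ
  obtain ⟨hζ1, s, hsS, hζP, hζ2, μ, φ, hμ, hμ1, hφ, hlt⟩ := hζ
  -- the cell of `s`
  have hcan : Cand (r ζ) (fun a => ⌊s a * ((i ^ 2 : ℕ) : ℝ)⌋) s := by
    rw [hCand]
    exact ⟨hsS, fun a => rfl, hζP, hζ2⟩
  have hcan' := hs0 (r ζ) (fun a => ⌊s a * ((i ^ 2 : ℕ) : ℝ)⌋) ⟨s, hcan⟩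
  refine ⟨fun a => ⌊s a * ((i ^ 2 : ℕ) : ℝ)⌋, ?_, hcan', ?_⟩
  · rw [hcells]
    exact BC1I_mem s hsS
  intro hGd
  obtain ⟨sc, hsc⟩ : ∃ sc : V m, sc = s0 (r ζ) (fun a => ⌊s a * ((i ^ 2 : ℕ) : ℝ)⌋) := ⟨_, rfl⟩
  rw [← hsc] at hcan' hGd
  rw [hCand] at hcan'
  obtain ⟨hc1, hc2, hc3, hc4⟩ := hcan'
  have hclose : ∀ a, |s a - sc a| ≤ 1 / ((i ^ 2 : ℕ) : ℝ) := fun a => BC1I_cell hNpos (hc2 a).symm
  have hδ0 : (0 : ℝ) ≤ 1 / ((i ^ 2 : ℕ) : ℝ) := by positivity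
  obtain ⟨hl1, hl2⟩ := hlin (fun a => s a - sc a) _ hδ0 hclose
  obtain ⟨hl3, hl4, -⟩ := BC1I_lin hhs (fun a => s a - sc a)
  rw [hN4] at hl1 hl2
  obtain ⟨hsm, hcl⟩ := hT2 ζ (v' (r ζ)) hζ1 (hv' (r ζ)) (fun q hq1 hq2 hq3 => by
    rw [hn10]
    exact hrd ζ hζ1 q hq1 hq2 hq3)
  -- the perturbation
  have hR100 : 0 ≤ Real.sqrt i ^ (1 / 100 : ℝ) / Real.sqrt i := by positivity
  have hf1 : SmS Γ B' (Real.sqrt i ^ (1 / 100 : ℝ)) (Real.sqrt i) (fun x => rD χ ζ x - bD χ K' (v' (r ζ)) x + ∑ a, (s a - sc a) * hs a x) := by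
    rw [hB'd]
    refine BC1I_sms hR100 hsm hl4 hl3 (fun x => (hl1 x).trans g2) (fun m' n x hx => (hl2 m' n x hx).trans ?_)
    exact mul_le_mul_of_nonneg_left g5 (hB10 m' n)
  have hf2 : ∀ x, |rD χ ζ x - bD χ K' (v' (r ζ)) x + ∑ a, (s a - sc a) * hs a x - (wD χ K' (v' (r ζ)) x + aN K' * VF (χ K') (fun j => ζ (K', (j : ℕ))) x)| ≤ Real.sqrt i ^ (-3 : ℝ) := by
    intro x
    have h1 := hcl x
    have h2 := (hl1 x).trans g1
    have e1 : rD χ ζ x - bD χ K' (v' (r ζ)) x + ∑ a, (s a - sc a) * hs a x - (wD χ K' (v' (r ζ)) x + aN K' * VF (χ K') (fun j => ζ (K', (j : ℕ))) x) =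
      (rD χ ζ x - bD χ K' (v' (r ζ)) x - (wD χ K' (v' (r ζ)) x + aN K' * VF (χ K') (fun j => ζ (K', (j : ℕ))) x)) + ∑ a, (s a - sc a) * hs a x := by ring
    rw [e1]
    have h3 := abs_add_le (rD χ ζ x - bD χ K' (v' (r ζ)) x - (wD χ K' (v' (r ζ)) x + aN K' * VF (χ K') (fun j => ζ (K', (j : ℕ))) x)) (∑ a, (s a - sc a) * hs a x)
    linarith
  have esum : ∀ x, ∑ a, (s a - sc a) * hs a x = ∑ a, s a * hs a x - ∑ a, sc a * hs a x := by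
    intro x
    rw [← Finset.sum_sub_distrib]
    exact Finset.sum_congr rfl fun a _ => by ring
  have hφ' : Eigenfunction Γ (cfm (fun x => rD χ ζ x - bD χ K' (v' (r ζ)) x + ∑ a, (s a - sc a) * hs a x) (cfm (bD χ K' (v' (r ζ))) (Gs sc))) μ φ := by
    have e1 : cfm (fun x => rD χ ζ x - bD χ K' (v' (r ζ)) x + ∑ a, (s a - sc a) * hs a x) (cfm (bD χ K' (v' (r ζ))) (Gs sc)) = cfm (rD χ ζ) (Gs s) := by
      rw [hGs]
      show cfm _ (cfm _ (cfm (fun x => ∑ a, sc a * hs a x) G0)) = cfm _ (cfm (fun x => ∑ a, s a * hs a x) G0)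
      rw [BC1I_cfm, BC1I_cfm, BC1I_cfm]
      have e2 : (fun x => rD χ ζ x - bD χ K' (v' (r ζ)) x + ∑ a, (s a - sc a) * hs a x + bD χ K' (v' (r ζ)) x + ∑ a, sc a * hs a x) = fun x => rD χ ζ x + ∑ a, s a * hs a x := by
        funext x
        rw [esum x]
        ring
      rw [e2]
    rw [e1]
    exact hφ
  have h5 := hGd _ μ φ hf1 hf2 hμ hμ1 hφ'
  -- comparison of the two metrics
  obtain ⟨rK, hrK⟩ := hK.compact.isBounded.exists_norm_le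
  have hη0 : 0 ≤ A * (1 / Real.sqrt i ^ 4) := by positivity
  obtain ⟨n1, n2, n3⟩ := hNN (cfm (bD χ K' (v' (r ζ))) (Gs sc)) (fun x => ∑ a, (s a - sc a) * hs a x) h φ F0 rK (A * (1 / Real.sqrt i ^ 4)) hc3.met hl3 hη0 g3 hl1
    hF.meas (fun x hx => hrK x (hF.sub hx)) hφ.1.continuous hh.smooth.continuous hh.bd
  have e3 : cfm (fun x => ∑ a, (s a - sc a) * hs a x) (cfm (bD χ K' (v' (r ζ))) (Gs sc)) = cfm (bD χ K' (v' (r ζ))) (Gs s) := by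
    rw [hGs]
    show cfm _ (cfm _ (cfm (fun x => ∑ a, sc a * hs a x) G0)) = cfm _ (cfm (fun x => ∑ a, s a * hs a x) G0)
    rw [BC1I_cfm, BC1I_cfm, BC1I_cfm]
    have e2 : (fun x => ∑ a, (s a - sc a) * hs a x + bD χ K' (v' (r ζ)) x + ∑ a, sc a * hs a x) = fun x => bD χ K' (v' (r ζ)) x + ∑ a, s a * hs a x := by
      funext x
      rw [esum x]
      ring
    rw [e2]
  rw [e3] at n1 n2 n3
  have hmn := (hMVE d (cfm (bD χ K' (v' (r ζ))) (Gs s)) hζP.met).2.2.2.2 F0 h hF.meas hh.bd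
  exact absurd hlt (not_lt.mpr (BC2D_real he hCN hη0 g4 n1 n2 n3 hmn (integral_nonneg fun x => by positivity) h5))

end

end Pool.Agent.VDI
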